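import Pool.Agent.H21.L.R_pool_sql_team_seeded_2aa45f1a.Q5.AI.Lab

/-!
# Families: linear independence of all ordinates and asymptotic independence
-/

set_option autoImplicit false

open Filter Topology Set Complex MeasureTheory
open Pool.Agent.Q5.AP Pool.Agent.Q5.LI
open Pool.Agent.TH270.MS (BM)

namespace Pool.Agent.Q5.AI

variable {ι : Type} {m : ι → ℝ → ℕ}

/-- the pairs (index, positive ordinate) -/
abbrev Ords (m : ι → ℝ → ℕ) : Type := {p : ι × ℝ // 0 < p.2 ∧ m p.1 p.2 ≠ 0}

/-- the ordinates of all members (as a family) are linearly independent over `ℚ` -/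
def FamInd (m : ι → ℝ → ℕ) : Prop := LinearIndependent ℚ fun p : Ords m => (p.1.2 : ℝ)

open Classical in
theorem data_fam {W : ι → ℝ → ℝ} {V : ι → ℝ} (P : ∀ i, Par (fun u => (cut (W i) u : ℂ)) (cm (m i)) (V i)) :
    Data (fun i => cut (W i)) (fun i => cm (m i)) V (fun p : Ords m => (p.1.2 : ℝ))
      (fun i p => if p.1.1 = i then cm (m i) p.1.2 else 0) where
  par := P
  cj i t := cm_conj (even_of_par (P i)) t
  zero i := cm_zero _
  pos l := l.2.1
  val i l h := by
    split_ifs at h ⊢ with h1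
    · rfl
    · exact absurd rfl h
  cov i t ht h := by
    refine ⟨⟨(i, t), ht, (cm_ne ht).1 h⟩, rfl, ?_⟩
    rw [if_pos rfl]
    exact h
  one i l l' h h' hv := by
    have h1 : l.1.1 = i := by
      by_contra h4
      exact h (if_neg h4)
    have h2 : l'.1.1 = i := by
      by_contra h4
      exact h' (if_neg h4)
    exact Subtype.ext (Prod.ext (h1.trans h2.symm) hv)
  act l := by
    refine ⟨l.1.1, ?_⟩
    rw [if_pos rfl]
    exact (cm_ne l.2.1).2 l.2.2

/-- **The joint random model** for the functions `E_i`: for all shifts `h_ij ≥ 0` and real weights `ξ_ij` the mean of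
`exp (i ∑_i ∑_j ξ_ij E_i(x e^(h_ij)))` with respect to `dx/x` is the (unconditionally convergent) product over the
pairs `(i, t)`, `t > 0`, of `J₀(2 m_i(t) |∑_j ξ_ij e^(i t h_ij)|/t)`. -/
def FamModel [Fintype ι] (m : ι → ℝ → ℕ) (E : ι → ℝ → ℝ) : Prop :=
  ∀ (k : ℕ) (h ξ : ι → Fin k → ℝ), (∀ i j, 0 ≤ h i j) →
    ∃ L : ℂ, HasProd (fun p : ι × ℝ => ((facS (m p.1) (kf (h p.1) (ξ p.1) p.2) p.2 : ℝ) : ℂ)) L ∧
      Tendsto (fun X : ℝ => (∫ x in Real.exp 1..X,
        exp (((∑ i, ∑ j, ξ i j * E i (x * Real.exp (h i j)) : ℝ) : ℂ) * I) / x) / Real.log X) atTop (𝓝 L)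

theorem mean_fam [Fintype ι] {W : ι → ℝ → ℝ} (hW : ∀ i, BM (W i)) {k : ℕ} (h ξ : ι → Fin k → ℝ)
    (hh : ∀ i j, 0 ≤ h i j) (L : ℂ) :
    Tendsto (fun X : ℝ => (∫ x in Real.exp 1..X,
        exp (((∑ i, ∑ j, ξ i j * W i (x * Real.exp (h i j)) : ℝ) : ℂ) * I) / x) / Real.log X) atTop (𝓝 L) ↔
      Tendsto (M fun u => exp (((∑ i, ∑ j, ξ i j * cut (W i) (u + h i j) : ℝ) : ℂ) * I)) atTop (𝓝 L) := by
  classical
  have hL2 : Pool.Agent.Q5.AP.L2 fun u => ((∑ i, ∑ j, ξ i j * cut (W i) (u + h i j) : ℝ) : ℂ) := by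
    have h1 : ∀ i, ∀ s : Finset (Fin k),
        Pool.Agent.Q5.AP.L2 fun u => ((∑ j ∈ s, ξ i j * cut (W i) (u + h i j) : ℝ) : ℂ) := by
      intro i s
      induction s using Finset.induction_on with
      | empty =>
        simp only [Finset.sum_empty]
        exact Pool.Agent.Q5.AP.l2_cont continuous_const
      | insert j s hj ih =>
        have h2 := ((L2.shift (Pool.Agent.Q5.AP.cut_l2 (hW i)) (hh i j)).const_mul (ξ i j : ℂ)).add ih
        simp only [Finset.sum_insert hj]
        convert! h2 using 1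
        funext u
        push_cast
        rfl
    have h3 : ∀ s : Finset ι,
        Pool.Agent.Q5.AP.L2 fun u => ((∑ i ∈ s, ∑ j, ξ i j * cut (W i) (u + h i j) : ℝ) : ℂ) := by
      intro s
      induction s using Finset.induction_on with
      | empty =>
        simp only [Finset.sum_empty]
        exact Pool.Agent.Q5.AP.l2_cont continuous_const
      | insert i s hi ih =>
        have h2 := (h1 i Finset.univ).add ih
        simp only [Finset.sum_insert hi]
        convert! h2 using 1
        funext u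
        push_cast
        rfl
    exact h3 Finset.univ
  have hint : ∀ T : ℝ, 0 < T → IntervalIntegrable
      (fun u => exp (((∑ i, ∑ j, ξ i j * cut (W i) (u + h i j) : ℝ) : ℂ) * I)) volume 0 T :=
    fun T hT => Pool.Agent.Q5.AP.exp_int (g := fun u => ∑ i, ∑ j, ξ i j * cut (W i) (u + h i j)) hL2 hT
  unfold M
  rw [Pool.Agent.Q5.BP.mean_from_one hint]
  have key : ∀ T : ℝ, 1 ≤ T →
      (∫ u in (1 : ℝ)..T, exp (((∑ i, ∑ j, ξ i j * cut (W i) (u + h i j) : ℝ) : ℂ) * I)) =
      ∫ x in Real.exp 1..Real.exp T,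
        exp (((∑ i, ∑ j, ξ i j * W i (x * Real.exp (h i j)) : ℝ) : ℂ) * I) / x := by
    intro T hT
    have e1 := Pool.Agent.Q5.BP.cov_iiC
      (fun u => exp (((∑ i, ∑ j, ξ i j * W i (Real.exp u * Real.exp (h i j)) : ℝ) : ℂ) * I)) hT
    have e2 : (∫ u in (1 : ℝ)..T, exp (((∑ i, ∑ j, ξ i j * cut (W i) (u + h i j) : ℝ) : ℂ) * I)) =
        ∫ u in (1 : ℝ)..T, exp (((∑ i, ∑ j, ξ i j * W i (Real.exp u * Real.exp (h i j)) : ℝ) : ℂ) * I) := by
      refine intervalIntegral.integral_congr_ae (Eventually.of_forall fun u hu => ?_)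
      rw [uIoc_of_le hT] at hu
      have e3 : ∀ i j, cut (W i) (u + h i j) = W i (Real.exp u * Real.exp (h i j)) := by
        intro i j
        rw [Pool.Agent.Q5.AP.cut_of (W i) (by linarith [hu.1, hh i j]), Real.exp_add]
      simp only [e3]
    rw [e2, ← e1]
    refine intervalIntegral.integral_congr fun y hy => ?_
    rw [uIcc_of_le (Real.exp_le_exp.2 hT)] at hy
    rw [Real.exp_log ((Real.exp_pos 1).trans_le hy.1)]
  constructor
  · intro h1
    have h2 := h1.comp Real.tendsto_exp_atTop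
    refine h2.congr' ?_
    filter_upwards [eventually_ge_atTop 1] with T hT
    rw [Function.comp_apply, key T hT, Real.log_exp]
  · intro h1
    have h2 := h1.comp Real.tendsto_log_atTop
    refine h2.congr' ?_
    filter_upwards [eventually_ge_atTop (Real.exp 1)] with X hX
    have hl : 1 ≤ Real.log X := Pool.Agent.TH270.MS.one_le_log hX
    rw [Function.comp_apply, key _ hl, Real.exp_log ((Real.exp_pos 1).trans_le hX)]

/-- **Linear independence of the ordinates of a finite family and the joint random model.** -/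
theorem fam_iff [Fintype ι] {W : ι → ℝ → ℝ} {V : ι → ℝ} (hW : ∀ i, BM (W i))
    (P : ∀ i, Par (fun u => (cut (W i) u : ℂ)) (cm (m i)) (V i)) :
    FamInd m ↔ FamModel m W := by
  classical
  unfold FamInd
  rw [(data_fam P).li_iff]
  have hprod : ∀ (s : Finset ι) (k : ℕ) (h ξ : ι → Fin k → ℝ) (L : ℂ),
      HasProd (fun l : Ords m => ((bz (∑ i ∈ s, (if l.1.1 = i then cm (m i) l.1.2 else 0) *
        kf (h i) (ξ i) l.1.2) : ℝ) : ℂ)) L ↔
      HasProd (fun p : ι × ℝ => ((facS (m p.1) (kf (h p.1) (fun j => if p.1 ∈ s then ξ p.1 j else 0) p.2) p.2 : ℝ) :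
        ℂ)) L := by
    intro s k h ξ L
    have hinj : Function.Injective (Subtype.val : Ords m → ι × ℝ) := Subtype.val_injective
    rw [← hinj.hasProd_iff (f := fun p : ι × ℝ =>
      ((facS (m p.1) (kf (h p.1) (fun j => if p.1 ∈ s then ξ p.1 j else 0) p.2) p.2 : ℝ) : ℂ))]
    · refine Iff.of_eq (congrArg (fun F => HasProd F L) (funext fun l => ?_))
      rw [Function.comp_apply]
      congr 1
      unfold facS
      rw [if_pos l.2.1]
      refine bz_norm ?_
      by_cases hs : l.1.1 ∈ s
      · rw [Finset.sum_eq_single l.1.1]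
        · rw [if_pos rfl]
          simp only [if_pos hs]
          rw [norm_mul, norm_cm, norm_div, norm_mul, Complex.norm_natCast, Complex.norm_real, Real.norm_eq_abs]
          ring
        · intro i _ hi
          rw [if_neg fun h1 => hi h1.symm, zero_mul]
        · intro h1
          exact absurd hs h1
      · rw [Finset.sum_eq_zero]
        · simp only [if_neg hs]
          unfold kf
          simp
        · intro i hi
          rw [if_neg (fun h1 => hs (by rw [h1]; exact hi)), zero_mul]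
    · intro p hp
      unfold facS
      by_cases h0 : 0 < p.2
      · rw [if_pos h0]
        by_cases h1 : m p.1 p.2 = 0
        · rw [h1, Nat.cast_zero, zero_mul, zero_div, bz_zero, Complex.ofReal_one]
        · exact absurd ⟨⟨p, h0, h1⟩, rfl⟩ hp
      · rw [if_neg h0, Complex.ofReal_one]
  constructor
  · intro hJ k h ξ hh
    obtain ⟨L, h1, h2⟩ := hJ Finset.univ k h ξ hh
    refine ⟨L, ?_, (mean_fam hW h ξ hh L).2 h2⟩
    have h3 := (hprod Finset.univ k h ξ L).1 h1
    simpa only [Finset.mem_univ, if_true] using h3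
  · intro hM s k h ξ hh
    obtain ⟨L, h1, h2⟩ := hM k h (fun i j => if i ∈ s then ξ i j else 0) hh
    refine ⟨L, (hprod s k h ξ L).2 h1, ?_⟩
    have h3 := (mean_fam hW h _ hh L).1 h2
    convert! h3 using 1
    funext X
    unfold M
    congr 1
    refine intervalIntegral.integral_congr fun u _ => ?_
    simp only
    congr 3
    rw [← Finset.sum_filter_add_sum_filter_not Finset.univ (fun i => i ∈ s)]
    have e2 : ∑ i with i ∉ s, ∑ j, (if i ∈ s then ξ i j else 0) * cut (W i) (u + h i j) = 0 := by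
      refine Finset.sum_eq_zero fun i hi => Finset.sum_eq_zero fun j _ => ?_
      rw [if_neg (Finset.mem_filter.1 hi).2, zero_mul]
    rw [e2, add_zero, Finset.filter_univ_mem]
    refine Finset.sum_congr rfl fun i hi => Finset.sum_congr rfl fun j _ => ?_
    rw [if_pos hi]

end Pool.Agent.Q5.AI
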