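import Pool.Agent.H21.L.R_pool_sql_team_seeded_2aa45f1a.Q5.ZP.SetModel

/-!
# Linear independence of a family of frequencies and the joint model of a family of processes
-/

set_option autoImplicit false

open Filter Topology Set Complex MeasureTheory
open Pool.Agent.Q5.AP Pool.Agent.Q5.LI

namespace Pool.Agent.Q5.AI

/-- **The law of a process with linearly independent frequencies.** -/
theorem char_of_li {g : ℝ → ℝ} {b : ℝ → ℂ} {U : ℝ} (hU : Par (fun u => (g u : ℂ)) b U)
    (hbc : ∀ t, (starRingEnd ℂ) (b (-t)) = b t) (hb00 : b 0 = 0)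
    (hli : LinearIndepOn ℚ id {t : ℝ | 0 < t ∧ b t ≠ 0}) :
    ∃ z : ℂ, HasProd (fun t : ℝ => (((if 0 < t then bz (b t) else 1 : ℝ)) : ℂ)) z ∧
      Tendsto (M fun u => exp ((g u : ℂ) * I)) atTop (𝓝 z) := by
  classical
  obtain ⟨z, hz⟩ := Par.exp_mean (g := g) hU
  refine ⟨z, ?_, hz⟩
  rw [HasProd, Metric.tendsto_nhds]
  intro ε hε
  have hev : ∀ᶠ S₁ : Finset ℝ in atTop, dist (∑ t ∈ S₁, ‖b t‖ ^ 2) U < ε ^ 2 :=
    (Metric.tendsto_nhds.1 hU.pa) (ε ^ 2) (by positivity)
  obtain ⟨S₁, hS₁⟩ := hev.exists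
  rw [Real.dist_eq, abs_lt] at hS₁
  filter_upwards [eventually_ge_atTop (S₁.image fun t => |t|)] with S hS
  rw [dist_comm, dist_eq_norm]
  set Sp : Finset ℝ := S.filter fun t => 0 < t ∧ b t ≠ 0 with hSp
  have hSpos : ∀ t ∈ Sp, 0 < t ∧ b t ≠ 0 := fun t ht => (Finset.mem_filter.1 ht).2
  have hli2 : ∀ n : Sp → ℤ, ∑ j, (n j : ℝ) * (j : ℝ) = 0 → n = 0 := by
    intro n hn
    have h1 : LinearIndependent ℚ fun x : {t : ℝ | 0 < t ∧ b t ≠ 0} => id (x : ℝ) := hli
    have h2 := h1.comp (fun j : Sp => (⟨(j : ℝ), hSpos j j.2⟩ : {t : ℝ | 0 < t ∧ b t ≠ 0}))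
      fun x y hxy => Subtype.ext (by simpa using congrArg Subtype.val hxy)
    rw [Fintype.linearIndependent_iff] at h2
    have h3 := h2 (fun j => (n j : ℚ)) (by
      refine Eq.trans (Finset.sum_congr rfl fun j _ => ?_) hn
      rw [Rat.smul_def]
      push_cast
      rfl)
    funext j
    have := h3 j
    exact_mod_cast this
  have hkw := kw_of_li (γ := fun j : Sp => (j : ℝ)) hli2 (fun j : Sp => b j)
  have hprod : ∏ t ∈ S, (((if 0 < t then bz (b t) else 1 : ℝ)) : ℂ) = ((∏ j : Sp, bz (b j) : ℝ) : ℂ) := by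
    rw [← Complex.ofReal_prod]
    congr 1
    rw [Finset.prod_coe_sort Sp fun x => bz (b x), hSp, Finset.prod_filter]
    refine Finset.prod_congr rfl fun t _ => ?_
    by_cases ht : 0 < t
    · by_cases hbt : b t = 0
      · rw [if_pos ht, hbt, bz_zero, if_neg fun h' => h'.2 rfl]
      · rw [if_pos ht, if_pos ⟨ht, hbt⟩]
    · rw [if_neg ht, if_neg fun h' => ht h'.1]
  rw [hprod]
  obtain ⟨U', hU'⟩ := par_tpoly (fun j : Sp => (j : ℝ)) (fun j : Sp => b j)
  have hD0 := hU.add (hU'.const_mul (-1))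
  set W : ℝ := U + ‖(-1 : ℂ)‖ ^ 2 * U' + 2 * (∑' t, b t * (starRingEnd ℂ)
    (-1 * tco (fun j : Sp => (j : ℝ)) (fun j : Sp => b j) t)).re with hW
  have hD : Par (fun u => (g u : ℂ) - (tpoly (fun j : Sp => (j : ℝ)) (fun j : Sp => b j) u : ℂ))
      (fun t => b t + -1 * tco (fun j : Sp => (j : ℝ)) (fun j : Sp => b j) t) W := by
    convert! hD0 using 1
    funext u
    ring
  have hlip := exp_lip (G := g) (P := tpoly (fun j : Sp => (j : ℝ)) (fun j : Sp => b j)) hU.loc
    hU'.loc hD hz hkw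
  refine hlip.trans_lt ?_
  have hW2 : W + ∑ t ∈ S₁, ‖b t‖ ^ 2 ≤ U := by
    have h1 : HasSum (fun t => if t ∈ S₁ then ‖b t‖ ^ 2 else 0) (∑ t ∈ S₁, ‖b t‖ ^ 2) := by
      have h0 : HasSum (fun t => if t ∈ S₁ then ‖b t‖ ^ 2 else 0)
          (∑ t ∈ S₁, if t ∈ S₁ then ‖b t‖ ^ 2 else 0) :=
        hasSum_sum_of_ne_finset_zero fun t ht => by rw [if_neg ht]
      convert! h0 using 1
      refine Finset.sum_congr rfl fun t ht => ?_
      rw [if_pos ht]
    refine hasSum_le (fun t => ?_) (hD.pa.add h1) hU.pa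
    rw [tco_eq]
    by_cases h1 : t ∈ Sp
    · have h2 : -t ∉ Sp := fun h' => by linarith [(hSpos _ h').1, (hSpos _ h1).1]
      rw [if_pos h1, if_neg h2]
      have e : b t + -1 * (b t + 0) = 0 := by ring
      rw [e, norm_zero]
      split_ifs
      · simp
      · simp
    · by_cases h2 : -t ∈ Sp
      · rw [if_neg h1, if_pos h2, hbc]
        have e : b t + -1 * (0 + b t) = 0 := by ring
        rw [e, norm_zero]
        split_ifs
        · simp
        · simp
      · rw [if_neg h1, if_neg h2, add_zero, mul_zero, add_zero]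
        split_ifs with h3
        · have h4 : |t| ∈ S := hS (Finset.mem_image_of_mem _ h3)
          have h5 : b t = 0 := by
            by_contra hne
            have ht0 : t ≠ 0 := fun h' => hne (by rw [h', hb00])
            have hne' : b (-t) ≠ 0 := fun h' => hne (by rw [← hbc, h', map_zero])
            rcases lt_or_gt_of_ne ht0 with h6 | h6
            · refine h2 (Finset.mem_filter.2 ⟨?_, by linarith, hne'⟩)
              rwa [abs_of_neg h6] at h4
            · refine h1 (Finset.mem_filter.2 ⟨?_, h6, hne⟩)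
              rwa [abs_of_pos h6] at h4
          rw [h5]
          simp
        · simp
  have h1 : W < ε ^ 2 := by linarith [hS₁.1]
  have h2 := hD.nonneg
  calc √W < √(ε ^ 2) := Real.sqrt_lt_sqrt h2 h1
    _ = ε := Real.sqrt_sq hε.le

/-- combinations of shifts -/
theorem combG {f : ℝ → ℝ} {c : ℝ → ℂ} {V : ℝ} (P : Par (fun u => (f u : ℂ)) c V) {k : ℕ} (h ξ : Fin k → ℝ)
    (hh : ∀ j, 0 ≤ h j) :
    ∃ U : ℝ, Par (fun u => ((∑ j, ξ j * f (u + h j) : ℝ) : ℂ)) (fun t => c t * kf h ξ t) U := by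
  have h1 : ∀ j ∈ (Finset.univ : Finset (Fin k)), Par (fun u => (ξ j : ℂ) * (f (u + h j) : ℂ))
      (fun t => (ξ j : ℂ) * (c t * exp ((t * h j : ℝ) * I))) (‖(ξ j : ℂ)‖ ^ 2 * V) :=
    fun j _ => (Par.shift P (hh j)).const_mul _
  obtain ⟨U, hU⟩ := par_sum Finset.univ h1
  refine ⟨U, ?_⟩
  convert! hU using 1
  · funext u
    push_cast
    rfl
  · funext t
    unfold kf
    rw [Finset.mul_sum]
    refine Finset.sum_congr rfl fun j _ => ?_
    ring

/-- a family of real processes with labelled frequencies -/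
structure Data {ι Λ : Type} (f : ι → ℝ → ℝ) (c : ι → ℝ → ℂ) (V : ι → ℝ) (v : Λ → ℝ) (d : ι → Λ → ℂ) :
    Prop where
  par : ∀ i, Par (fun u => (f i u : ℂ)) (c i) (V i)
  cj : ∀ i t, (starRingEnd ℂ) (c i (-t)) = c i t
  zero : ∀ i, c i 0 = 0
  pos : ∀ l, 0 < v l
  val : ∀ i l, d i l ≠ 0 → c i (v l) = d i l
  cov : ∀ i t, 0 < t → c i t ≠ 0 → ∃ l, v l = t ∧ d i l ≠ 0
  one : ∀ i l l', d i l ≠ 0 → d i l' ≠ 0 → v l = v l' → l = l'
  act : ∀ l, ∃ i, d i l ≠ 0

/-- the joint model: independent phases for the labels -/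
def JM {ι Λ : Type} (f : ι → ℝ → ℝ) (v : Λ → ℝ) (d : ι → Λ → ℂ) : Prop :=
  ∀ (s : Finset ι) (k : ℕ) (h ξ : ι → Fin k → ℝ), (∀ i j, 0 ≤ h i j) →
    ∃ L : ℂ, HasProd (fun l : Λ => ((bz (∑ i ∈ s, d i l * kf (h i) (ξ i) (v l)) : ℝ) : ℂ)) L ∧
      Tendsto (M fun u => exp (((∑ i ∈ s, ∑ j, ξ i j * f i (u + h i j) : ℝ) : ℂ) * I)) atTop (𝓝 L)

variable {ι Λ : Type} {f : ι → ℝ → ℝ} {c : ι → ℝ → ℂ} {V : ι → ℝ} {v : Λ → ℝ} {d : ι → Λ → ℂ}

/-- the total process -/
theorem Data.tot (D : Data f c V v d) (s : Finset ι) {k : ℕ} (h ξ : ι → Fin k → ℝ) (hh : ∀ i j, 0 ≤ h i j) :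
    ∃ U : ℝ, Par (fun u => ((∑ i ∈ s, ∑ j, ξ i j * f i (u + h i j) : ℝ) : ℂ))
      (fun t => ∑ i ∈ s, c i t * kf (h i) (ξ i) t) U := by
  choose U hU using fun i => combG (D.par i) (h i) (ξ i) (hh i)
  obtain ⟨W, hW⟩ := par_sum s fun i _ => hU i
  refine ⟨W, ?_⟩
  convert! hW using 1
  funext u
  push_cast
  rfl

/-- **The joint model under linear independence.** -/
theorem Data.jm_of_li (D : Data f c V v d) (hli : LinearIndependent ℚ v) : JM f v d := by
  intro s k h ξ hh
  obtain ⟨U, hU⟩ := D.tot s h ξ hh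
  set b : ℝ → ℂ := fun t => ∑ i ∈ s, c i t * kf (h i) (ξ i) t with hb
  have hbc : ∀ t, (starRingEnd ℂ) (b (-t)) = b t := by
    intro t
    rw [hb]
    simp only
    rw [map_sum]
    refine Finset.sum_congr rfl fun i _ => ?_
    rw [map_mul, D.cj, kf_conj]
  have hb0 : b 0 = 0 := by
    rw [hb]
    simp only
    refine Finset.sum_eq_zero fun i _ => ?_
    rw [D.zero, zero_mul]
  have hsub : {t : ℝ | 0 < t ∧ b t ≠ 0} ⊆ Set.range v := by
    rintro t ⟨ht, hbt⟩
    obtain ⟨i, -, hi⟩ := Finset.exists_ne_zero_of_sum_ne_zero hbt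
    obtain ⟨l, hl, -⟩ := D.cov i t ht (left_ne_zero_of_mul hi)
    exact ⟨l, hl⟩
  have hli2 : LinearIndepOn ℚ id (Set.range v) := hli.linearIndepOn_id
  obtain ⟨z, h1, h2⟩ := char_of_li (g := fun u => ∑ i ∈ s, ∑ j, ξ i j * f i (u + h i j)) hU hbc hb0
    (hli2.mono hsub)
  refine ⟨z, ?_, h2⟩
  have hinj : Function.Injective v := hli.injective
  have h3 := (hinj.hasProd_iff (f := fun t : ℝ => (((if 0 < t then bz (b t) else 1 : ℝ)) : ℂ)) (a := z)
    (fun t ht => by
      by_cases h4 : 0 < t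
      · have h5 : b t = 0 := by
          by_contra h6
          exact ht (hsub ⟨h4, h6⟩)
        rw [if_pos h4, h5, bz_zero]
        simp
      · rw [if_neg h4]
        simp)).2 h1
  convert! h3 using 1
  funext l
  rw [Function.comp_apply, if_pos (D.pos l)]
  congr 2
  rw [hb]
  simp only
  refine Finset.sum_congr rfl fun i _ => ?_
  congr 1
  by_cases h4 : d i l = 0
  · by_contra h5
    have h6 : c i (v l) ≠ 0 := fun h7 => h5 (by rw [h4, h7])
    obtain ⟨l', h7, h8⟩ := D.cov i (v l) (D.pos l) h6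
    exact h8 (by rw [hinj h7, h4])
  · exact (D.val i l h4).symm

theorem Data.summable_d (D : Data f c V v d) (i : ι) : Summable fun l => ‖d i l‖ ^ 2 := by
  have h1 : Summable fun t => ‖c i t‖ ^ 2 := (D.par i).pa.summable
  have h2 : Function.Injective fun l : {l : Λ | d i l ≠ 0} => v l := fun x y hxy =>
    Subtype.ext (D.one i x y x.2 y.2 hxy)
  have h3 := h1.comp_injective h2
  have h4 : Summable ((fun l => ‖d i l‖ ^ 2) ∘ (Subtype.val : {l : Λ | d i l ≠ 0} → Λ)) := by
    refine h3.congr fun l => ?_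
    simp only [Function.comp_apply]
    rw [D.val i l l.2]
  refine (Function.Injective.summable_iff Subtype.val_injective fun x hx => ?_).1 h4
  have h5 : d i x = 0 := by
    by_contra h6
    exact hx ⟨⟨x, h6⟩, rfl⟩
  rw [h5]
  simp


theorem bz_near1 (z : ℂ) : ‖((bz z : ℝ) : ℂ) - 1‖ ≤ 2 * ‖z‖ ^ 2 := by
  have h1 : ((bz z : ℝ) : ℂ) - 1 = ((bz z - 1 : ℝ) : ℂ) := by
    push_cast; rfl
  rw [h1, Complex.norm_real, Real.norm_eq_abs]
  exact bz_sub_one z

theorem sum_near {ι : Type} (s : Finset ι) (a b : ι → ℂ) (C : ι → ℝ) (hb : ∀ i ∈ s, ‖b i‖ ≤ C i) :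
    ‖∑ i ∈ s, a i * b i‖ ^ 2 ≤ s.card * ∑ i ∈ s, ‖a i‖ ^ 2 * C i ^ 2 := by
  have h1 : ‖∑ i ∈ s, a i * b i‖ ≤ ∑ i ∈ s, ‖a i‖ * C i := by
    refine (norm_sum_le _ _).trans (Finset.sum_le_sum fun i hi => ?_)
    rw [norm_mul]
    exact mul_le_mul_of_nonneg_left (hb i hi) (norm_nonneg _)
  calc ‖∑ i ∈ s, a i * b i‖ ^ 2 ≤ (∑ i ∈ s, ‖a i‖ * C i) ^ 2 := by gcongr
    _ ≤ s.card * ∑ i ∈ s, (‖a i‖ * C i) ^ 2 := sq_sum_le_card_mul_sum_sq
    _ = s.card * ∑ i ∈ s, ‖a i‖ ^ 2 * C i ^ 2 := by simp only [mul_pow]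

/-- **The laws of the trigonometric polynomials.** -/
theorem Data.poly (D : Data f c V v d) (hM : JM f v d) (T : Finset Λ) (w : T → ℂ) :
    Tendsto (M fun u => exp ((tpoly (fun j : T => v j) w u : ℂ) * I)) atTop
      (𝓝 ((∏ j, bz (w j) : ℝ) : ℂ)) := by
  classical
  choose rep hrep using D.act
  set W : Λ → ℂ := fun l => if hl : l ∈ T then w ⟨l, hl⟩ else 0 with hW
  have hWT : ∀ j : T, W j = w j := fun j => by
    rw [hW]
    simp only
    rw [dif_pos j.2]
  have hW0 : ∀ l, l ∉ T → W l = 0 := fun l hl => by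
    rw [hW]
    simp only
    rw [dif_neg hl]
  set s : Finset ι := T.image rep with hs
  set Ti : ι → Finset Λ := fun i => T.filter fun l => rep l = i with hTi
  set Si : ι → Finset ℝ := fun i => (Ti i).image v with hSi
  set wt : ι → ℝ → ℂ := fun i t => ∑ l ∈ Ti i, if v l = t then W l / d i l else 0 with hwt
  have hmem : ∀ i, ∀ l ∈ Ti i, d i l ≠ 0 := by
    intro i l hl
    have h1 := (Finset.mem_filter.1 hl).2
    rw [← h1]
    exact hrep l
  have hSpos : ∀ i, ∀ t ∈ Si i, 0 < t := by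
    intro i t ht
    obtain ⟨l, -, rfl⟩ := Finset.mem_image.1 ht
    exact D.pos l
  have hwt0 : ∀ i t, t ∉ Si i → wt i t = 0 := by
    intro i t ht
    rw [hwt]
    simp only
    refine Finset.sum_eq_zero fun l hl => ?_
    rw [if_neg]
    intro h1
    exact ht (Finset.mem_image.2 ⟨l, hl, h1⟩)
  have hKi : ∀ i t, Ki (Si i) (wt i) t = wt i t + (starRingEnd ℂ) (wt i (-t)) := by
    intro i t
    unfold Ki
    congr 1
    · split_ifs with h1
      · rfl
      · exact (hwt0 i t h1).symm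
    · split_ifs with h1
      · rfl
      · rw [hwt0 i _ h1, map_zero]
  -- the values at the labels
  have hK1 : ∀ i l, d i l * Ki (Si i) (wt i) (v l) = if l ∈ Ti i then W l else 0 := by
    intro i l
    rw [hKi, hwt0 i (-(v l)) fun h => by linarith [hSpos i _ h, D.pos l], map_zero, add_zero]
    by_cases h0 : d i l = 0
    · rw [h0, zero_mul, if_neg fun h => hmem i l h h0]
    · by_cases h1 : l ∈ Ti i
      · rw [if_pos h1, hwt]
        simp only
        rw [Finset.sum_eq_single l]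
        · rw [if_pos rfl, mul_div_cancel₀ _ h0]
        · intro l' hl' hne
          rw [if_neg]
          intro h2
          exact hne (D.one i l' l (hmem i l' hl') h0 h2)
        · intro h2
          exact absurd h1 h2
      · rw [if_neg h1, hwt0, mul_zero]
        intro h2
        obtain ⟨l', hl', h3⟩ := Finset.mem_image.1 h2
        exact h1 (by rw [← D.one i l' l (hmem i l' hl') h0 h3]; exact hl')
  have hK3 : ∀ l, ∑ i ∈ s, d i l * Ki (Si i) (wt i) (v l) = W l := by
    intro l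
    simp only [hK1]
    by_cases hl : l ∈ T
    · rw [Finset.sum_eq_single (rep l)]
      · have h1 : l ∈ Ti (rep l) := by
          rw [hTi]
          exact Finset.mem_filter.2 ⟨hl, rfl⟩
        rw [if_pos h1]
      · intro i _ hne
        rw [if_neg]
        intro h1
        exact hne (Finset.mem_filter.1 h1).2.symm
      · intro h1
        exact absurd (Finset.mem_image_of_mem _ hl) h1
    · rw [hW0 l hl]
      refine Finset.sum_eq_zero fun i _ => ?_
      split_ifs <;> rfl
  -- the coefficients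
  have hc1 : ∀ i t, c i t * wt i t = ∑ l ∈ Ti i, if v l = t then W l else 0 := by
    intro i t
    rw [hwt]
    simp only
    rw [Finset.mul_sum]
    refine Finset.sum_congr rfl fun l hl => ?_
    split_ifs with h1
    · rw [← h1, D.val i l (hmem i l hl), mul_div_cancel₀ _ (hmem i l hl)]
    · rw [mul_zero]
  have hK2 : ∀ t, ∑ i ∈ s, c i t * Ki (Si i) (wt i) t = tco (fun j : T => v j) w t := by
    intro t
    have h1 : ∀ i, c i t * Ki (Si i) (wt i) t =
        ∑ l ∈ Ti i, ((if t = v l then W l else 0) + if t = -(v l) then (starRingEnd ℂ) (W l) else 0) := by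
      intro i
      rw [hKi, mul_add, hc1, Finset.sum_add_distrib]
      congr 1
      · refine Finset.sum_congr rfl fun l _ => ?_
        simp only [eq_comm]
      · rw [← D.cj i t, ← map_mul, hc1, map_sum]
        refine Finset.sum_congr rfl fun l _ => ?_
        by_cases h2 : t = -(v l)
        · rw [if_pos h2, if_pos (by rw [h2, neg_neg])]
        · rw [if_neg h2, if_neg (fun h3 => h2 (by rw [h3, neg_neg])), map_zero]
    simp only [h1]
    rw [Finset.sum_fiberwise_of_maps_to (fun l hl => Finset.mem_image_of_mem rep hl)]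
    unfold tco
    rw [← Finset.sum_coe_sort T]
    refine Finset.sum_congr rfl fun j _ => ?_
    rw [hWT]
  -- a generic step
  have hsupp : ∀ i, {t : ℝ | c i t ≠ 0}.Countable := by
    intro i
    have h1 := (D.par i).pa.summable.countable_support
    refine h1.mono fun t ht => ?_
    have : c i t ≠ 0 := ht
    show ‖c i t‖ ^ 2 ≠ 0
    exact pow_ne_zero _ (norm_ne_zero_iff.2 this)
  set B : Set ℝ := ⋃ i ∈ s, ⋃ y ∈ Si i, ((fun t => t - y) '' {t : ℝ | c i t ≠ 0} ∪
    (fun t => t + y) '' {t : ℝ | c i t ≠ 0}) with hB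
  have hBc : B.Countable := s.countable_toSet.biUnion fun i _ =>
    (Si i).countable_toSet.biUnion fun y _ => ((hsupp i).image _).union ((hsupp i).image _)
  obtain ⟨l₀, hl0, hl⟩ := exists_step hBc
  have hKN : ∀ i ∈ s, ∀ t, c i t ≠ 0 →
      Tendsto (fun N => KN l₀ (Si i) (wt i) N t) atTop (𝓝 (Ki (Si i) (wt i) t)) := by
    intro i hi t ht
    refine KN_tendsto (wt i) (fun y hy h0 => ?_) fun y hy h0 => ?_
    · refine hl _ ?_ h0
      rw [hB]
      simp only [Set.mem_iUnion]
      exact ⟨i, hi, y, hy, Or.inl ⟨t, ht, rfl⟩⟩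
    · refine hl _ ?_ h0
      rw [hB]
      simp only [Set.mem_iUnion]
      exact ⟨i, hi, y, hy, Or.inr ⟨t, ht, rfl⟩⟩
  set C : ι → ℝ := fun i => ∑ y ∈ Si i, 2 * ‖wt i y‖ with hC
  -- the laws of the averages
  have hmod : ∀ N : ℕ, ∃ L : ℂ,
      HasProd (fun l : Λ => ((bz (∑ i ∈ s, d i l * KN l₀ (Si i) (wt i) N (v l)) : ℝ) : ℂ)) L ∧
      Tendsto (M fun u => exp (((∑ i ∈ s, ∑ j, xiN l₀ (Si i) (wt i) N j * f i (u + hN l₀ N j) : ℝ) : ℂ) * I))
        atTop (𝓝 L) := by
    intro N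
    obtain ⟨L, h1, h2⟩ := hM s N (fun _ => hN l₀ N) (fun i => xiN l₀ (Si i) (wt i) N) fun i j => by
      unfold hN
      positivity
    refine ⟨L, ?_, h2⟩
    simp only [kf_eq] at h1
    exact h1
  choose L hL1 hL2 using hmod
  have hcomb : ∀ N : ℕ, ∃ U : ℝ,
      Par (fun u => ((∑ i ∈ s, ∑ j, xiN l₀ (Si i) (wt i) N j * f i (u + hN l₀ N j) : ℝ) : ℂ))
      (fun t => ∑ i ∈ s, c i t * KN l₀ (Si i) (wt i) N t) U := by
    intro N
    obtain ⟨U, hU⟩ := D.tot s (fun _ => hN l₀ N) (fun i => xiN l₀ (Si i) (wt i) N) fun i j => by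
      unfold hN
      positivity
    refine ⟨U, ?_⟩
    simp only [kf_eq] at hU
    exact hU
  choose U hU using hcomb
  -- the polynomial
  obtain ⟨U', hU'⟩ := par_tpoly (fun j : T => v j) w
  obtain ⟨z, hz⟩ := Par.exp_mean (g := tpoly (fun j : T => v j) w) hU'
  -- the limit of the laws
  have hlim1 : Tendsto L atTop (𝓝 z) := by
    rw [tendsto_iff_norm_sub_tendsto_zero]
    have hDN : ∀ N : ℕ, ∃ Y : ℝ, ‖L N - z‖ ≤ √Y ∧
        HasSum (fun t => ‖∑ i ∈ s, c i t * (KN l₀ (Si i) (wt i) N t - Ki (Si i) (wt i) t)‖ ^ 2) Y := by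
      intro N
      have h1 := (hU N).add (hU'.const_mul (-1))
      set Y : ℝ := U N + ‖(-1 : ℂ)‖ ^ 2 * U' + 2 * (∑' t, (∑ i ∈ s, c i t * KN l₀ (Si i) (wt i) N t) *
        (starRingEnd ℂ) (-1 * tco (fun j : T => v j) w t)).re with hY
      have hD : Par (fun u => ((∑ i ∈ s, ∑ j, xiN l₀ (Si i) (wt i) N j * f i (u + hN l₀ N j) : ℝ) : ℂ) -
          (tpoly (fun j : T => v j) w u : ℂ))
          (fun t => (∑ i ∈ s, c i t * KN l₀ (Si i) (wt i) N t) + -1 * tco (fun j : T => v j) w t) Y := by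
        convert! h1 using 1
        funext u
        ring
      refine ⟨Y, exp_lip (G := fun u => ∑ i ∈ s, ∑ j, xiN l₀ (Si i) (wt i) N j * f i (u + hN l₀ N j))
        (P := tpoly (fun j : T => v j) w) (hU N).loc hU'.loc hD (hL2 N) hz, ?_⟩
      convert! hD.pa using 1
      funext t
      rw [← hK2]
      congr 2
      rw [neg_one_mul, ← sub_eq_add_neg, ← Finset.sum_sub_distrib]
      refine Finset.sum_congr rfl fun i _ => ?_
      ring
    choose Y hY1 hY2 using hDN
    have hY3 : Tendsto Y atTop (𝓝 0) := by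
      have h1 : Y = fun N => ∑' t, ‖∑ i ∈ s, c i t * (KN l₀ (Si i) (wt i) N t - Ki (Si i) (wt i) t)‖ ^ 2 :=
        funext fun N => (hY2 N).tsum_eq.symm
      rw [h1]
      have h2 : Tendsto (fun N => ∑' t, ‖∑ i ∈ s, c i t * (KN l₀ (Si i) (wt i) N t - Ki (Si i) (wt i) t)‖ ^ 2)
          atTop (𝓝 (∑' _ : ℝ, (0 : ℝ))) := by
        refine tendsto_tsum_of_dominated_convergence
          (bound := fun t => s.card * ∑ i ∈ s, ‖c i t‖ ^ 2 * (2 * C i) ^ 2) ?_ (fun t => ?_)
          (Eventually.of_forall fun N t => ?_)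
        · refine Summable.mul_left _ (summable_sum fun i _ => ?_)
          exact (D.par i).pa.summable.mul_right _
        · have h3 : ∀ i ∈ s, Tendsto (fun N => c i t * (KN l₀ (Si i) (wt i) N t - Ki (Si i) (wt i) t)) atTop
              (𝓝 0) := by
            intro i hi
            by_cases ht : c i t = 0
            · simp only [ht, zero_mul]
              exact tendsto_const_nhds
            · have h3 := ((hKN i hi t ht).sub_const (Ki (Si i) (wt i) t)).const_mul (c i t)
              rwa [sub_self, mul_zero] at h3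
          have h4 := tendsto_finsetSum s h3
          rw [Finset.sum_const_zero] at h4
          have h5 := (h4.norm).pow 2
          rw [norm_zero] at h5
          simpa using h5
        · rw [Real.norm_eq_abs, abs_of_nonneg (by positivity)]
          refine sum_near s _ _ (fun i => 2 * C i) fun i _ => ?_
          refine (norm_sub_le _ _).trans ?_
          have := KN_norm l₀ (Si i) (wt i) N t
          have := Ki_norm (Si i) (wt i) t
          rw [hC]
          simp only
          linarith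
      rwa [tsum_zero] at h2
    have h5 : Tendsto (fun N => √(Y N)) atTop (𝓝 0) := by
      have := (Real.continuous_sqrt.tendsto 0).comp hY3
      rwa [Real.sqrt_zero] at this
    exact squeeze_zero (fun N => norm_nonneg _) hY1 h5
  have hlim2 : Tendsto L atTop (𝓝 ((∏ j : T, bz (w j) : ℝ) : ℂ)) := by
    have h1 : L = fun N => ∏' l, (1 + (((bz (∑ i ∈ s, d i l * KN l₀ (Si i) (wt i) N (v l)) : ℝ) : ℂ) - 1)) := by
      funext N
      rw [← (hL1 N).tprod_eq]
      refine tprod_congr fun t => ?_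
      ring
    have h2 : Tendsto (fun N => ∏' l, (1 + (((bz (∑ i ∈ s, d i l * KN l₀ (Si i) (wt i) N (v l)) : ℝ) : ℂ) - 1)))
        atTop (𝓝 (∏' l, (1 + (((bz (∑ i ∈ s, d i l * Ki (Si i) (wt i) (v l)) : ℝ) : ℂ) - 1)))) := by
      refine tendsto_tprod_one_add_of_dominated_convergence
        (bound := fun l => 2 * (s.card * ∑ i ∈ s, ‖d i l‖ ^ 2 * C i ^ 2)) ?_ (fun l => ?_)
        (Eventually.of_forall fun N l => ?_)
      · refine Summable.mul_left _ (Summable.mul_left _ (summable_sum fun i _ => ?_))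
        exact (D.summable_d i).mul_right _
      · refine Tendsto.sub_const ?_ 1
        refine (Complex.continuous_ofReal.tendsto _).comp ?_
        refine (bz_cont.tendsto _).comp ?_
        refine tendsto_finsetSum s fun i hi => ?_
        by_cases h3 : d i l = 0
        · simp only [h3, zero_mul]
          exact tendsto_const_nhds
        · refine (hKN i hi (v l) ?_).const_mul _
          rw [D.val i l h3]
          exact h3
      · refine (bz_near1 _).trans ?_
        refine mul_le_mul_of_nonneg_left ?_ zero_le_two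
        exact sum_near s _ _ C fun i _ => KN_norm l₀ (Si i) (wt i) N (v l)
    rw [h1]
    convert! h2 using 2
    simp only [hK3]
    have h3 : ∀ l ∉ T, (1 + (((bz (W l) : ℝ) : ℂ) - 1)) = 1 := by
      intro l hl
      rw [hW0 l hl, bz_zero]
      simp
    rw [tprod_eq_prod h3, Complex.ofReal_prod, ← Finset.prod_coe_sort T]
    refine Finset.prod_congr rfl fun j _ => ?_
    rw [hWT]
    ring
  rw [← tendsto_nhds_unique hlim1 hlim2]
  exact hz

/-- **Linear independence of the labels and the joint model.** -/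
theorem Data.li_iff (D : Data f c V v d) : LinearIndependent ℚ v ↔ JM f v d := by
  refine ⟨D.jm_of_li, fun hM => ?_⟩
  rw [linearIndependent_iff_finset_linearIndependent]
  intro T
  have h2 : LinearIndependent ℤ (v ∘ (Subtype.val : T → Λ)) := by
    rw [Fintype.linearIndependent_iff]
    intro g hg i
    have h3 := li_of_kw (γ := fun j : T => v j) (fun w => D.poly hM T w) g (by
      rw [← hg]
      refine Finset.sum_congr rfl fun j _ => ?_
      rw [zsmul_eq_mul]
      rfl)
    exact congrFun h3 i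
  exact (LinearIndependent.iff_fractionRing (R := ℤ) (K := ℚ)).1 h2

end Pool.Agent.Q5.AI
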